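import Pool.Agent.Q193.LT.Sums
import Pool.Agent.Q193.LT.Crit

/-!
# The de Rham-Betti conjecture and tripartite hypergraphs

Let `K` be a subfield of the field of algebraic numbers and let `M` be the category of André motives over
`K`, a semisimple abelian category with Tate twists `N ↦ N(a)`. For a separated scheme `X` of finite type
over `ℚ` let `D.H i X` be the object of `M` given by the graded object of the weight filtration of the
cohomology with compact supports `H^i_c(X_K)`; for smooth projective `X` it is the motive `h^i(X_K)`.

For a motive `N` let `dRB N` be the equality `Ω^dRB_N = Ω^And_N` of question Q1. If a motive has this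
property, then so does every object of the Tannakian category generated by it, in particular every
direct factor (see the problem file; hypothesis `inherit`).

Every smooth projective variety over `K` is a union of connected components of `Y_K` for a smooth
projective variety `Y` over `ℚ`. So every André motive over `K` is a direct factor of a finite direct
sum of Tate twists of motives `h^i(Y_K)`, and question Q1 for `K` says that `dRB` is true for all these
finite direct sums, that is `SumsHave D (OfProjAll D) dRB`.

For a finite set `H` of triples `(i, j, l)` (a tripartite hypergraph) let `X_H` be the smooth affine
cubic hypersurface `∑_{(i, j, l) ∈ H} x_i y_j z_l = 1` over `ℚ`.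

**Theorem.** The equality `Ω^dRB_N = Ω^And_N` is true for all André motives `N` over `K` if and only if it
is true for all finite direct sums of Tate motives and of Tate twists of motives
`Gr^W H^i_c((X_H)_K)`, where the `H` are finite sets of triples.
-/

set_option autoImplicit false

open CategoryTheory CategoryTheory.Limits AlgebraicGeometry Pool.Agent.Y116.UV Pool.Agent.Z125.UN
  Pool.Agent.Q193.LT

universe v u

namespace Pool.Agent.Results.MP_470b79_ag.HypergraphMotives

/-- **The de Rham-Betti conjecture and tripartite hypergraphs.** See the explanations above. -/
theorem result {M : Type u} [Category.{v} M] [Abelian M] {D : CompactData ℚ M} (h : IsMotives D)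
    {dRB : M → Prop} (inherit : ∀ {N N' : M} (i : N ⟶ N') (r : N' ⟶ N), i ≫ r = 𝟙 N →
      dRB N' → dRB N) :
    SumsHave D (OfProjAll D) dRB ↔ SumsHave D (OfGraphs D) dRB :=
  sums_graph_iff h.compact h.generated h.semisimple inherit frac_rat

end Pool.Agent.Results.MP_470b79_ag.HypergraphMotives
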