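import Pool.Agent.Q137.UO.WSet

/-!
# The de Rham-Betti conjecture for the cohomology in one degree, and tripartite hypergraphs

Let `K` be a subfield of the field of algebraic numbers and let `M` be the category of André motives over
`K`, a semisimple abelian category with Tate twists `P ↦ P(a)`. Let `w` be an integer. For a separated
scheme `X` of finite type over `ℚ` let `D.H N n X` be the object `Gr^W_{w+2N} H^n_c(X_K)` of `M`; for
smooth projective `X` it is `h^n(X_K)` if `n = w + 2N`, and it is zero otherwise.

For a motive `P` let `dRB P` be the equality `Ω^dRB_P = Ω^And_P` of question Q1. If a motive has this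
property, then so does every object of the Tannakian category generated by it, in particular every
direct factor (see the problem file; hypothesis `inherit`). Every smooth projective variety over `K` is a
union of connected components of `Y_K` for a smooth projective variety `Y` over `ℚ`. So the statement
`SumsHave (zeroData D) (OfProjS D (· = N)) dRB` says that the equality is true for all finite direct sums
of Tate motives and Tate twists of motives `h^m(Y)`, `m = w + 2N`, for smooth projective varieties `Y` over
`K`, and for all motives in the Tannakian categories which they generate. For `m = 1` these are the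
motives of abelian varieties.

For a finite set `H` of triples `(i, j, l)` with `1 ≤ i ≤ a` (a tripartite hypergraph) let `X_H` be the
smooth affine cubic hypersurface `∑_{(i, j, l) ∈ H} x_i y_j z_l = 1` over `ℚ`.

**Theorem.** (1) For every degree `m = w + 2N` the equality is true for all finite direct sums of Tate
motives and Tate twists of motives `h^m(Y)` if and only if it is true for all finite direct sums of Tate
motives and Tate twists of motives `Gr^W_{m+2(a-1)} H^n_c((X_H)_K)`. The same is true for all degrees
`m = w + 2N`, `N` in an arbitrary set `S`, together. In particular (`w = 1`, `N = 0`) question Q1 for the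
motives of all abelian varieties over `K` is question Q1 for the motives `Gr^W_{2a-1} H^n_c((X_H)_K)`
and their sums.

(2) Suppose that the equality is true for all finite direct sums of Tate motives and Tate twists of motives
`h^m(Y)`, `m ≤ w + 2 N₀`. This is known for `w + 2 N₀ ≤ 0` (Artin motives and Tate motives). Then the
equality is true for the finite direct sums of Tate twists of motives `Gr^W_r H^n_c((T = 1)_K)`,
`r = w + 2 m`, for the hypersurfaces of rational trilinear forms `T` in `a` variables `x` (and any numbers
of variables `y` and `z`), `r ≤ w + 2 N₀ + 2(a - 1)`.
-/

set_option autoImplicit false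

open CategoryTheory CategoryTheory.Limits AlgebraicGeometry Pool.Agent.Y116.UV Pool.Agent.Z125.UN
  Pool.Agent.Q193.LT Pool.Agent.Q49.WU Pool.Agent.Q137.UO

universe v u

namespace Pool.Agent.Results.MP_470b79_ag.OneWeight

attribute [local instance] Abelian.hasFiniteBiproducts

/-- **The de Rham-Betti conjecture, weight by weight.** See the explanations above. -/
theorem result {M : Type u} [Category.{v} M] [Abelian M] {D : WeightData ℚ M} (h : IsWMotives D)
    {dRB : M → Prop} (inherit : ∀ {P P' : M} (i : P ⟶ P') (r : P' ⟶ P), i ≫ r = 𝟙 P →
      dRB P' → dRB P) :
    (∀ S : ℤ → Prop, SumsHave (zeroData D) (OfProjS D S) dRB ↔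
      SumsHave (zeroData D) (OfGraphsS D S) dRB) ∧
    ∀ N₀ : ℤ, SumsHave (zeroData D) (OfProjS D (· ≤ N₀)) dRB →
      ∀ (J : Type) [Finite J] (a b c : J → ℕ) (T : ∀ j, Fin (a j) → Fin (b j) → Fin (c j) → ℚ)
        (m n t : J → ℤ), (∀ j, m j ≤ N₀ + (a j - 1)) →
          dRB (⨁ fun j => (D.tw (t j)).obj (D.H (m j) (n j) (hypS (T j)))) :=
  ⟨set_graph h inherit frac_rat, fun _ low J _ a b c T m n t hm =>
    low_set h inherit low J a b c T m n t hm⟩

end Pool.Agent.Results.MP_470b79_ag.OneWeight
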