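import Pool.Agent.Q311.DRB

/-!
# De Rham-Betti classes are products of polarisations if there are no unexpected quadratic relations between the periods

Let `K` be a field of algebraic numbers and `M = M_1 ⊕ … ⊕ M_N` a sum of polarised de Rham-Betti objects over `K` of the
same odd weight `w` and the same rank `n`, for example `M_j = h^1` of an abelian variety of dimension `n / 2`: for `M_j`, the
polarisation is given by matrices `Q_j` over `K` (on the de Rham side) and `polB n` (on the Betti side; every nondegenerate
alternating form over `ℚ` has this matrix in some basis), and the period matrix `c_j` satisfies `c_j Q_j c_jᵀ = l polB` with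
the transcendental number `l = (2πi)^w`.

A de Rham-Betti class in `M^(⊗κ)` twisted such that the products of `m` polarisations are classes is given by a tensor `F`
over `ℚ` (the Betti component) and a tensor `a` over `K` (the de Rham component) with `c^(⊗κ) a = l^m F` (`IsClass`). All
tensor spaces `M^(⊗p) ⊗ (M^∨)^(⊗q)` are of this form up to twists, because of the polarisations.

Theorem. Assume that all homogeneous quadratic relations with algebraic coefficients between the entries of the `c_j` hold
on the torsor of all `(X_j)` which respect the polarisations (with the same multiplier); or that this is true for the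
quadratic relations with coefficients in `K`, and that no `c_j` is proportional to a matrix with algebraic entries. Then for
all finite sets `κ` and all `m` the de Rham-Betti classes in `M^(⊗κ)` are the linear combinations of the products of
polarisations. If `M` is a motive the polarisations are motivated (and algebraic), so all de Rham-Betti classes on all tensor
spaces of `M` are motivated (and algebraic).

So the de Rham-Betti conjecture for these motives, which is about classes on tensor spaces of arbitrary degree, follows from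
a statement about the relations of degree two.
-/

set_option autoImplicit false

open Matrix

namespace Pool.Agent.Results.MP_470b79_ag.QuadraticRelationsAndClasses

/-- the alternating form with entries `2 (-1)^r` at `(r, s)`, `|r - s| = 1` -/
def polB (n : ℕ) : Matrix (Fin n) (Fin n) ℚ :=
  Matrix.of fun r s => if (r : ℕ) = s + 1 ∨ (s : ℕ) = r + 1 then 2 * (-1) ^ (r : ℕ) else 0

/-- `(X_1, …, X_N)` respects the polarisations, with multiplier `μ` -/
def Respects {n N : ℕ} (Q : Fin N → Matrix (Fin n) (Fin n) ℂ) (X : Fin N → Matrix (Fin n) (Fin n) ℂ) (μ : ℂ) : Prop :=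
  ∀ j, X j * Q j * (X j)ᵀ = μ • (polB n).map (algebraMap ℚ ℂ)

/-- the value of a polynomial over `K` at the entries of the matrices `X_j` -/
noncomputable def value {n N : ℕ} {K : Subfield ℂ} (X : Fin N → Matrix (Fin n) (Fin n) ℂ)
    (P : MvPolynomial (Fin N × Fin n × Fin n) K) : ℂ :=
  MvPolynomial.eval (fun s => X s.1 s.2.1 s.2.2) (MvPolynomial.map (algebraMap K ℂ) P)

/-- all homogeneous quadratic relations over `K` between the entries of the matrices `c_j` hold on the torsor of the
polarisations -/
def NoQuadraticRelation {n N : ℕ} (K : Subfield ℂ) (Q c : Fin N → Matrix (Fin n) (Fin n) ℂ) : Prop :=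
  ∀ P : MvPolynomial (Fin N × Fin n × Fin n) K, P.IsHomogeneous 2 → value c P = 0 →
    ∀ (X : Fin N → Matrix (Fin n) (Fin n) ℂ) (μ : ℂ), μ ≠ 0 → Respects Q X μ → value X P = 0

/-- the field of all algebraic numbers -/
noncomputable def algebraicNumbers : Subfield ℂ := (algebraicClosure ℚ ℂ).toSubfield

/-- `F` is the Betti component of a de Rham-Betti class over `K` in `M^(⊗κ)`, twisted by `m` -/
def IsClass {n N : ℕ} (K : Subfield ℂ) (c : Fin N → Matrix (Fin n) (Fin n) ℂ) (l : ℂ) {κ : Type} [Fintype κ]
    [DecidableEq κ] (m : ℕ) (F : (κ → Fin n × Fin N) → ℚ) : Prop :=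
  ∃ a : (κ → Fin n × Fin N) → K, ∀ I, l ^ m * (F I : ℂ) = ∑ I', (∏ k, Matrix.blockDiagonal c (I k) (I' k)) * (a I' : ℂ)

/-- the product of `m` polarisations: the factors are paired by `e`, the pair `l` belongs to the summand `M_(b l)` -/
def product (n : ℕ) {N : ℕ} {κ : Type} {m : ℕ} (e : Fin m × Fin 2 ≃ κ) (b : Fin m → Fin N) : (κ → Fin n × Fin N) → ℚ :=
  fun I => ∏ l, if (I (e (l, 0))).2 = b l ∧ (I (e (l, 1))).2 = b l then
    polB n (I (e (l, 0))).1 (I (e (l, 1))).1 else 0

theorem result (n N : ℕ) (hn : Even n) (hn0 : 0 < n) (hN : 0 < N) (K : Subfield ℂ) (hK : ∀ x ∈ K, IsAlgebraic ℚ x)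
    (Q c : Fin N → Matrix (Fin n) (Fin n) ℂ) (hQ : ∀ j a b, Q j a b ∈ K) (l : ℂ) (hl : Transcendental ℚ l)
    (hc : Respects Q c l)
    (h : NoQuadraticRelation algebraicNumbers Q c ∨ (NoQuadraticRelation K Q c ∧
      ∀ j, ¬ ∃ (ν : ℂ) (a : Matrix (Fin n) (Fin n) ℂ), (∀ r s, IsAlgebraic ℚ (a r s)) ∧ c j = ν • a))
    (κ : Type) [Fintype κ] [DecidableEq κ] (m : ℕ) (F : (κ → Fin n × Fin N) → ℚ) :
    IsClass K c l m F ↔ F ∈ Submodule.span ℚ {G | ∃ (e : Fin m × Fin 2 ≃ κ) (b : Fin m → Fin N), G = product n e b} := by
  rcases h with h | h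
  · constructor
    · rintro ⟨a, ha⟩
      exact (Pool.Agent.Q311.DRB.quad_cls (K := algebraicNumbers) hn hn0 hN
        (fun x hx => Pool.Agent.Q311.DRB.mem_Qb.1 hx)
        (fun j a b => Pool.Agent.Q311.DRB.mem_Qb.2 (hK _ (hQ j a b))) hl hc h
        (Or.inl fun x hx => Pool.Agent.Q311.DRB.mem_Qb.2 hx) κ m F).1
        ⟨fun I => ⟨a I, Pool.Agent.Q311.DRB.mem_Qb.2 (hK _ (a I).2)⟩, ha⟩
    · exact Pool.Agent.Q311.DRB.cls_of hQ hl hc κ m F
  · exact Pool.Agent.Q311.DRB.quad_cls hn hn0 hN hK hQ hl hc h.1 (Or.inr h.2) κ m F

end Pool.Agent.Results.MP_470b79_ag.QuadraticRelationsAndClasses
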