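import Pool.Agent.Q67.TP.RFinal

/-!
# MP_470b79_ag: de Rham-Betti classes and motivated classes, reductive case
-/

set_option autoImplicit false

open CategoryTheory AlgebraicGeometry

universe u

namespace Pool.Agent.Results.MP_470b79_ag.ReductiveFourthPower

open Pool.Agent.H914
open Pool.Agent.Q67.TP.S

/-- Let `S` be a theory consisting of a Hodge theory (a Weil cohomology theory with rational
coefficients with a Hodge decomposition of its cohomology with complex coefficients) and of the
algebraic de Rham cohomology over the field of the algebraic numbers, a graded subspace of the
cohomology with complex coefficients which is stable under products and pull-backs and contains the
classes `(2 π i) ^ j cl(z)`. Let `C` be a system of classes which are both Hodge classes and de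
Rham-Betti classes, which contains the classes of algebraic cycles and is stable under products,
pull-backs and push-forwards (for example the motivated classes), such that a polarisation of the
cohomology of `X` and the projector to the odd cohomology are given by classes in `C` (this is the
case for the motivated classes). Let `L(R)` be the Lie algebra of the operators on the cohomology of
`X` which kill (as derivations) the classes in `R` on all powers of `X`. Suppose that `L(dRB)` acts
semisimply on the cohomology of `X × X`: this is the case if the de Rham-Betti group of `X` is
reductive, for example if `X` is an abelian variety (by the analytic subgroup theorem).

Then there is `N` in `{1, 2, ..., ∞}` such that the quotients of the dimension of the space of the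
de Rham-Betti classes on `X^n` by the dimension of the space spanned by `C` converge to `N`, and

* `N = 1` if and only if all de Rham-Betti classes on all powers of `X` are linear combinations of
  classes in `C` (the realisation is full on the tensor category generated by `X`); otherwise
  asymptotically at most one half of them are; if `N` is finite, then `N - 1` de Rham-Betti classes
  on powers of `X` generate all of them over `C`;
* `N` is finite if and only if `L(C)` kills all de Rham-Betti classes on all powers, and if and only
  if `L(C)` kills the de Rham-Betti classes on `X^4` and its elements in the centre of the algebra
  of the operators given by de Rham-Betti classes kill the de Rham-Betti classes on all powers;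
* if all de Rham-Betti classes on `X^4` are linear combinations of classes in `C` and no nonzero
  element of the centre of the algebra of the operators given by `C` is skew-symmetric, then `N` is
  finite. -/
theorem result {k : Type u} [Field k] {𝒱 : VarClass k} {ops : CycleOps 𝒱} (S : Theory ops)
    (X : 𝒱.Obj) [Nontrivial (RH S.T X)] (C : Classes S.T) (hC : IsSystem S C) (u : ROp S.T X)
    (hu : PolarisedBy C X u) (ho : OddIn C X) (hs : ActsSemisimply (drb S) X) :
    ∃ N : ℕ∞, Law (drb S) C X N ∧ FourFor (drb S) C X N :=
  law_semi S X C hC u hu ho hs

end Pool.Agent.Results.MP_470b79_ag.ReductiveFourthPower
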